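import Pool.Agent.Helper93.LCH.Stmts

/-!
Existence of a system of measures (row MEA of the chain criterion, helper61 for helper93):
multisets of multisets of ordinals with the iterated Dershowitz-Manna order.
-/

namespace LCH61

open LCH

universe x

/-- The multiset order of a relation. -/
def DM {X : Type x} (r : X → X → Prop) (M N : Multiset X) : Prop :=
  ∃ A B C : Multiset X, C ≠ 0 ∧ M = A + B ∧ N = A + C ∧ ∀ y ∈ B, ∃ z ∈ C, r y z

/-- the preorder of a transitive and well-founded relation -/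
def pre {X : Type x} (r : X → X → Prop) (hw : WellFounded r)
    (ht : ∀ a b c, r a b → r b c → r a c) : Preorder X where
  le a b := a = b ∨ r a b
  lt a b := r a b
  le_refl a := Or.inl rfl
  le_trans a b c := by
    rintro (rfl | h1) (rfl | h2)
    · exact Or.inl rfl
    · exact Or.inr h2
    · exact Or.inr h1
    · exact Or.inr (ht _ _ _ h1 h2)
  lt_iff_le_not_ge a b := by
    have irr : ∀ c, ¬ r c c := fun c h => (hw.irrefl.irrefl c) h
    constructor
    · intro h
      refine ⟨Or.inr h, ?_⟩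
      rintro (h1 | h1)
      · rw [h1] at h
        exact irr _ h
      · exact irr _ (ht _ _ _ h h1)
    · rintro ⟨h | h, h1⟩
      · exact absurd (Or.inl h.symm) h1
      · exact h

theorem dm_wf {X : Type x} (r : X → X → Prop) (hw : WellFounded r)
    (ht : ∀ a b c, r a b → r b c → r a c) : WellFounded (DM r) := by
  letI : Preorder X := pre r hw ht
  haveI : WellFoundedLT X := ⟨hw⟩
  exact Multiset.wellFounded_isDershowitzMannaLT (α := X)

theorem dm_tr {X : Type x} (r : X → X → Prop) (hw : WellFounded r)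
    (ht : ∀ a b c, r a b → r b c → r a c) (M N P : Multiset X) (h1 : DM r M N) (h2 : DM r N P) :
    DM r M P := by
  letI : Preorder X := pre r hw ht
  exact Multiset.IsDershowitzMannaLT.trans (α := X) h1 h2

section
variable {X : Type x} {r : X → X → Prop}

theorem dm_add {M N : Multiset X} (P : Multiset X) (h : DM r M N) : DM r (M + P) (N + P) := by
  obtain ⟨A, B, C, hC, rfl, rfl, h⟩ := h
  refine ⟨A + P, B, C, hC, ?_, ?_, h⟩
  · rw [add_right_comm]
  · rw [add_right_comm]

theorem dm_le (M N : Multiset X) (hN : N ≠ 0) : DM r M (M + N) := by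
  refine ⟨M, 0, N, hN, by rw [add_zero], rfl, ?_⟩
  intro y hy
  exact absurd hy (Multiset.notMem_zero y)

theorem dm_single {M : Multiset X} {z : X} : DM r M {z} ↔ ∀ y ∈ M, r y z := by
  constructor
  · rintro ⟨A, B, C, hC, rfl, h2, h⟩
    have hcard := congrArg Multiset.card h2
    rw [Multiset.card_singleton, Multiset.card_add] at hcard
    have hC1 : 0 < Multiset.card C := Multiset.card_pos.2 hC
    have hA : A = 0 := Multiset.card_eq_zero.1 (by omega)
    subst hA
    rw [zero_add] at h2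
    intro y hy
    rw [zero_add] at hy
    obtain ⟨w, hw, hyw⟩ := h y hy
    rw [← h2, Multiset.mem_singleton] at hw
    rw [hw] at hyw
    exact hyw
  · intro h
    refine ⟨0, M, {z}, Multiset.singleton_ne_zero z, by rw [zero_add], by rw [zero_add], ?_⟩
    intro y hy
    exact ⟨z, Multiset.mem_singleton_self z, h y hy⟩

end

/-- inner multisets -/
abbrev In : Type 1 := Multiset Ordinal.{0}

/-- inner relation -/
def R1 : In → In → Prop := DM (fun a b : Ordinal.{0} => a < b)

theorem r1_wf : WellFounded R1 :=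
  dm_wf _ (wellFounded_lt (α := Ordinal.{0})) (fun _ _ _ h1 h2 => lt_trans h1 h2)

theorem r1_tr : ∀ a b c, R1 a b → R1 b c → R1 a c :=
  dm_tr _ (wellFounded_lt (α := Ordinal.{0})) (fun _ _ _ h1 h2 => lt_trans h1 h2)

/-- measures -/
abbrev Tm : Type 1 := Multiset In

/-- outer relation -/
def R2 : Tm → Tm → Prop := DM R1

theorem r2_wf : WellFounded R2 := dm_wf _ r1_wf r1_tr

theorem r2_tr : ∀ a b c, R2 a b → R2 b c → R2 a c := dm_tr _ r1_wf r1_tr

theorem r2_single {A : Tm} {b : Ordinal.{0}} : R2 A {{b}} ↔ ∀ m ∈ A, ∀ x ∈ m, x < b := by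
  unfold R2
  rw [dm_single]
  unfold R1
  constructor
  · intro h m hm
    exact dm_single.1 (h m hm)
  · intro h m hm
    exact dm_single.2 (h m hm)

/-- all sums -/
def mlm (A B : Tm) : Tm := (A ×ˢ B).map (fun p => p.1 + p.2)

theorem mem_mlm {A B : Tm} {w : In} : w ∈ mlm A B ↔ ∃ m ∈ A, ∃ n ∈ B, m + n = w := by
  unfold mlm
  rw [Multiset.mem_map]
  constructor
  · rintro ⟨p, hp, rfl⟩
    rw [Multiset.mem_product] at hp
    exact ⟨p.1, hp.1, p.2, hp.2, rfl⟩
  · rintro ⟨m, hm, n, hn, rfl⟩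
    exact ⟨(m, n), Multiset.mem_product.2 ⟨hm, hn⟩, rfl⟩

theorem mlm_comm (A B : Tm) : mlm A B = mlm B A := by
  unfold mlm
  rw [← Multiset.map_swap_product A B, Multiset.map_map]
  apply Multiset.map_congr rfl
  intro p _
  exact add_comm _ _

theorem mlm_add (A B C : Tm) : mlm A (B + C) = mlm A B + mlm A C := by
  unfold mlm
  rw [Multiset.product_add, Multiset.map_add]

theorem add_mlm (A B C : Tm) : mlm (A + B) C = mlm A C + mlm B C := by
  unfold mlm
  rw [Multiset.add_product, Multiset.map_add]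

theorem zero_mlm (A : Tm) : mlm 0 A = 0 := by
  unfold mlm
  rw [Multiset.zero_product, Multiset.map_zero]

theorem mlm_zero (A : Tm) : mlm A 0 = 0 := by
  rw [mlm_comm, zero_mlm]

theorem mlm_o (A : Tm) : mlm A {0} = A := by
  induction A using Multiset.induction_on with
  | empty => exact zero_mlm _
  | cons m A ih =>
    have h : (m ::ₘ A : Tm) = {m} + A := (Multiset.singleton_add m A).symm
    rw [h, add_mlm, ih]
    congr 1
    unfold mlm
    rw [Multiset.product_singleton, Multiset.map_singleton]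
    change ({m + 0} : Tm) = {m}
    rw [add_zero]

theorem mlm_ne {A B : Tm} (hA : A ≠ 0) (hB : B ≠ 0) : mlm A B ≠ 0 := by
  obtain ⟨m, hm⟩ := Multiset.exists_mem_of_ne_zero hA
  obtain ⟨n, hn⟩ := Multiset.exists_mem_of_ne_zero hB
  intro h
  have : m + n ∈ mlm A B := mem_mlm.2 ⟨m, hm, n, hn, rfl⟩
  rw [h] at this
  exact Multiset.notMem_zero _ this

theorem mlm_lt (A B C : Tm) (h : R2 A B) (hC : C ≠ 0) : R2 (mlm A C) (mlm B C) := by
  obtain ⟨X, Y, Z, hZ, rfl, rfl, h⟩ := h
  refine ⟨mlm X C, mlm Y C, mlm Z C, mlm_ne hZ hC, add_mlm _ _ _, add_mlm _ _ _, ?_⟩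
  intro w hw
  obtain ⟨y, hy, c, hc, rfl⟩ := mem_mlm.1 hw
  obtain ⟨z, hz, hyz⟩ := h y hy
  exact ⟨z + c, mem_mlm.2 ⟨z, hz, c, hc, rfl⟩, dm_add c hyz⟩

theorem le_mlm (A B : Tm) (hB : B ≠ 0) : A = mlm A B ∨ R2 A (mlm A B) := by
  rcases eq_or_ne A 0 with rfl | hA
  · left
    rw [zero_mlm]
  by_cases hn : ∃ n ∈ B, n ≠ 0
  · obtain ⟨n, hn, hn0⟩ := hn
    right
    refine ⟨0, A, mlm A B, mlm_ne hA hB, by rw [zero_add], by rw [zero_add], ?_⟩
    intro y hy
    exact ⟨y + n, mem_mlm.2 ⟨y, hy, n, hn, rfl⟩, dm_le y n hn0⟩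
  · push Not at hn
    obtain ⟨n, hn1⟩ := Multiset.exists_mem_of_ne_zero hB
    obtain ⟨B', rfl⟩ := Multiset.exists_cons_of_mem hn1
    have e : n = 0 := hn n hn1
    subst e
    rw [← Multiset.singleton_add, mlm_add, mlm_o]
    rcases eq_or_ne (mlm A B') 0 with h0 | h0
    · left
      rw [h0, add_zero]
    · right
      exact dm_le A _ h0

/-- the recursion for labels -/
noncomputable def labF (A : Tm) (ih : ∀ B, R2 B A → Ordinal.{0}) : Ordinal.{0} :=
  max ((A.join.map Order.succ).sup) (⨆ B : {B // R2 B A}, Order.succ (ih B.1 B.2))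

/-- labels -/
noncomputable def lab : Tm → Ordinal.{0} := r2_wf.fix labF

theorem lab_eq (A : Tm) : lab A = max ((A.join.map Order.succ).sup)
    (⨆ B : {B // R2 B A}, Order.succ (lab B.1)) :=
  WellFounded.fix_eq r2_wf labF A

theorem atom_lt (A : Tm) : ∀ m ∈ A, ∀ a ∈ m, a < lab A := by
  intro m hm a ha
  rw [lab_eq]
  apply lt_of_lt_of_le _ (le_max_left _ _)
  apply lt_of_lt_of_le (Order.lt_succ a)
  apply Multiset.le_sup
  apply Multiset.mem_map_of_mem
  exact Multiset.mem_join.2 ⟨m, hm, ha⟩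

theorem small_below (b : Ordinal.{0}) : Small.{0} {B : Tm // ∀ m ∈ B, ∀ a ∈ m, a < b} := by
  have f : ∀ x : Shrink.{0} (Set.Iio b), (((equivShrink (Set.Iio b)).symm x : Set.Iio b) : Ordinal.{0}) < b :=
    fun x => ((equivShrink (Set.Iio b)).symm x).2
  let g : Multiset (Multiset (Shrink.{0} (Set.Iio b))) → {B : Tm // ∀ m ∈ B, ∀ a ∈ m, a < b} :=
    fun C => ⟨C.map (fun m => m.map (fun x => (((equivShrink (Set.Iio b)).symm x : Set.Iio b) : Ordinal.{0}))), by
      intro m hm a ha
      obtain ⟨m', _, rfl⟩ := Multiset.mem_map.1 hm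
      obtain ⟨x, _, rfl⟩ := Multiset.mem_map.1 ha
      exact f x⟩
  have hg : Function.Surjective g := by
    rintro ⟨B, hB⟩
    have h1 : ∀ m : In, (∀ a ∈ m, a < b) → ∃ m' : Multiset (Shrink.{0} (Set.Iio b)),
        m'.map (fun x => (((equivShrink (Set.Iio b)).symm x : Set.Iio b) : Ordinal.{0})) = m := by
      intro m
      induction m using Multiset.induction_on with
      | empty => exact fun _ => ⟨0, Multiset.map_zero _⟩
      | cons a m ih =>
        intro h
        obtain ⟨m', hm'⟩ := ih (fun c hc => h c (Multiset.mem_cons_of_mem hc))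
        refine ⟨equivShrink (Set.Iio b) ⟨a, h a (Multiset.mem_cons_self a m)⟩ ::ₘ m', ?_⟩
        rw [Multiset.map_cons, hm', Equiv.symm_apply_apply]
    have h2 : ∀ B : Tm, (∀ m ∈ B, ∀ a ∈ m, a < b) →
        ∃ C : Multiset (Multiset (Shrink.{0} (Set.Iio b))),
          C.map (fun m => m.map
            (fun x => (((equivShrink (Set.Iio b)).symm x : Set.Iio b) : Ordinal.{0}))) = B := by
      intro B
      induction B using Multiset.induction_on with
      | empty => exact fun _ => ⟨0, Multiset.map_zero _⟩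
      | cons m B ih =>
        intro h
        obtain ⟨C, hC⟩ := ih (fun c hc => h c (Multiset.mem_cons_of_mem hc))
        obtain ⟨m', hm'⟩ := h1 m (h m (Multiset.mem_cons_self m B))
        refine ⟨m' ::ₘ C, ?_⟩
        rw [Multiset.map_cons, hC, hm']
    obtain ⟨C, hC⟩ := h2 B hB
    exact ⟨C, Subtype.ext hC⟩
  exact small_of_surjective hg

theorem small_lt (A : Tm) : Small.{0} {B // R2 B A} := by
  -- a bound for the atoms of `A`
  let b : Ordinal.{0} := (A.join.map Order.succ).sup
  have hb : ∀ m ∈ A, ∀ a ∈ m, a < b := by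
    intro m hm a ha
    apply lt_of_lt_of_le (Order.lt_succ a)
    apply Multiset.le_sup
    apply Multiset.mem_map_of_mem
    exact Multiset.mem_join.2 ⟨m, hm, ha⟩
  haveI := small_below b
  have key : ∀ B, R2 B A → ∀ m ∈ B, ∀ a ∈ m, a < b := by
    intro B hB
    exact r2_single.1 (r2_tr _ _ _ hB (r2_single.2 hb))
  let f : {B // R2 B A} → {B : Tm // ∀ m ∈ B, ∀ a ∈ m, a < b} := fun B => ⟨B.1, key B.1 B.2⟩
  have hf : Function.Injective f := by
    intro B C h
    have h' : (f B).1 = (f C).1 := congrArg Subtype.val h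
    exact Subtype.ext h'
  exact small_of_injective hf

theorem lab_lt (A B : Tm) (h : R2 A B) : lab A < lab B := by
  rw [lab_eq B]
  apply lt_of_lt_of_le _ (le_max_right _ _)
  apply lt_of_lt_of_le (Order.lt_succ (lab A))
  haveI := small_lt B
  have hbd : BddAbove (Set.range (fun C : {C // R2 C B} => Order.succ (lab C.1))) :=
    Ordinal.bddAbove_of_small
  exact le_ciSup hbd (⟨A, h⟩ : {C // R2 C B})

/-- the system of measures -/
noncomputable def sysm : MSys Tm where
  o := {0}
  ml := mlm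
  iv A := {{lab A}}
  lt := R2
  wf := r2_wf
  tr := r2_tr
  add_lt a b c h := dm_add c h
  pos a ha := by
    have h := dm_le (r := R1) 0 a ha
    rw [zero_add] at h
    exact h
  o_ne := Multiset.singleton_ne_zero _
  o_lt c := by
    rw [r2_single]
    intro m hm a ha
    rw [Multiset.mem_singleton.1 hm] at ha
    exact absurd ha (Multiset.notMem_zero a)
  ml_o := mlm_o
  ml_add := mlm_add
  add_ml := add_mlm
  zero_ml := zero_mlm
  ml_zero := mlm_zero
  ml_lt := mlm_lt
  ml_lt' a b c h hc := by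
    rw [mlm_comm c a, mlm_comm c b]
    exact mlm_lt a b c h hc
  le_ml := le_mlm
  le_ml' a b hb := by
    rw [mlm_comm b a]
    exact le_mlm a b hb
  iv_lt a b h := by
    rw [r2_single]
    intro m hm x hx
    rw [Multiset.mem_singleton.1 hm] at hx
    rw [Multiset.mem_singleton.1 hx]
    exact lab_lt a b h
  lt_iv a := r2_single.2 (atom_lt a)
  iv_add a b c h1 h2 := by
    rw [r2_single] at h1 h2 ⊢
    intro m hm
    rcases Multiset.mem_add.1 hm with h | h
    · exact h1 m h
    · exact h2 m h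
  iv_ml a b c h1 h2 := by
    rw [r2_single] at h1 h2 ⊢
    intro w hw x hx
    obtain ⟨m, hm, n, hn, rfl⟩ := mem_mlm.1 hw
    rcases Multiset.mem_add.1 hx with h | h
    · exact h1 m hm x h
    · exact h2 n hn x h

theorem st_MEA : ST_MEA := ⟨Tm, ⟨sysm⟩⟩

end LCH61
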