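import Pool.Agent.Helper93.LCH.Stmts

/-!
Sums of compatible operators with pointwise different order automorphisms (row MVC of the chain
criterion, helper61 for helper93).
-/

namespace LCH61

open LCH

universe u v

variable {K : Type u} [Field K] {G : Type v} [Group G]

open Classical in
/-- the pointwise minimum -/
noncomputable def mn (s : Sit G) (φ ψ : G → G) (x : G) : G :=
  if s.lt (φ x) (ψ x) then φ x else ψ x

theorem asymm' (s : Sit G) {x y : G} (h1 : s.lt x y) (h2 : s.lt y x) : False :=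
  s.lt_irrefl x (s.lt_trans h1 h2)

theorem mn_left (s : Sit G) {φ ψ : G → G} {x : G} (h : s.lt (φ x) (ψ x)) :
    mn s φ ψ x = φ x := by
  unfold mn
  rw [if_pos h]

theorem mn_right (s : Sit G) {φ ψ : G → G} {x : G} (h : s.lt (ψ x) (φ x)) :
    mn s φ ψ x = ψ x := by
  unfold mn
  rw [if_neg (fun h1 => asymm' s h h1)]

theorem vcw_add (s : Sit G) (S T : Module.End K (s.V K)) (φ ψ : G → G) (h1 : VCw s S φ)
    (h2 : VCw s T ψ) (hne : ∀ x ∈ s.M, φ x ≠ ψ x) : VCw s (S + T) (mn s φ ψ) := by
  obtain ⟨a1, b1, c1, d1⟩ := h1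
  obtain ⟨a2, b2, c2, d2⟩ := h2
  have tri : ∀ x ∈ s.M, s.lt (φ x) (ψ x) ∨ s.lt (ψ x) (φ x) := by
    intro x hx
    rcases s.lt_tot (a1 x hx) (a2 x hx) with h | h | h
    · exact absurd h (hne x hx)
    · exact Or.inl h
    · exact Or.inr h
  refine ⟨?_, ?_, ?_, ?_⟩
  · intro x hx
    rcases tri x hx with h | h
    · rw [mn_left s h]; exact a1 x hx
    · rw [mn_right s h]; exact a2 x hx
  · intro y hy
    obtain ⟨x1, hx1, e1⟩ := b1 y hy
    obtain ⟨x2, hx2, e2⟩ := b2 y hy
    rcases s.lt_tot hx1 hx2 with h | h | h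
    · exfalso
      apply hne x1 hx1
      rw [e1, h, e2]
    · refine ⟨x2, hx2, ?_⟩
      have h3 : s.lt (ψ x2) (φ x2) := by
        rw [e2, ← e1]
        exact c1 x1 hx1 x2 hx2 h
      rw [mn_right s h3, e2]
    · refine ⟨x1, hx1, ?_⟩
      have h3 : s.lt (φ x1) (ψ x1) := by
        rw [e1, ← e2]
        exact c2 x2 hx2 x1 hx1 h
      rw [mn_left s h3, e1]
  · intro x hx y hy hxy
    have k1 := c1 x hx y hy hxy
    have k2 := c2 x hx y hy hxy
    have key : s.lt (mn s φ ψ x) (φ y) ∧ s.lt (mn s φ ψ x) (ψ y) := by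
      rcases tri x hx with h | h
      · rw [mn_left s h]
        exact ⟨k1, s.lt_trans h k2⟩
      · rw [mn_right s h]
        exact ⟨s.lt_trans h k1, k2⟩
    rcases tri y hy with h | h
    · rw [mn_left s h]; exact key.1
    · rw [mn_right s h]; exact key.2
  · intro v x hv
    have hx : x ∈ s.M := v.2.1 x hv.1
    obtain ⟨e1, f1⟩ := d1 v x hv
    obtain ⟨e2, f2⟩ := d2 v x hv
    have hsum : ∀ y, ((S + T) v).1 y = (S v).1 y + (T v).1 y := fun y => rfl
    have hor : ∀ y, ((S + T) v).1 y ≠ 0 → (S v).1 y ≠ 0 ∨ (T v).1 y ≠ 0 := by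
      intro y hy
      by_contra hcon
      push Not at hcon
      apply hy
      rw [hsum, hcon.1, hcon.2, add_zero]
    rcases tri x hx with h | h
    · rw [mn_left s h]
      constructor
      · rw [hsum]
        have h0 : (T v).1 (φ x) = 0 := by
          by_contra hcon
          rcases f2 _ hcon with h3 | h3
          · exact hne x hx h3
          · exact asymm' s h h3
        rw [h0, add_zero]
        exact e1
      · intro y hy
        rcases hor y hy with h3 | h3
        · exact f1 y h3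
        · rcases f2 y h3 with h4 | h4
          · rw [h4]; exact Or.inr h
          · exact Or.inr (s.lt_trans h h4)
    · rw [mn_right s h]
      constructor
      · rw [hsum]
        have h0 : (S v).1 (ψ x) = 0 := by
          by_contra hcon
          rcases f1 _ hcon with h3 | h3
          · exact hne x hx h3.symm
          · exact asymm' s h h3
        rw [h0, zero_add]
        exact e2
      · intro y hy
        rcases hor y hy with h3 | h3
        · rcases f1 y h3 with h4 | h4
          · rw [h4]; exact Or.inr h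
          · exact Or.inr (s.lt_trans h h4)
        · exact f2 y h3

theorem vcw_sum (s : Sit G) (n : ℕ) : ∀ (T : Fin (n + 1) → Module.End K (s.V K))
    (φ : Fin (n + 1) → G → G), (∀ i, VCw s (T i) (φ i)) →
    (∀ i j, i ≠ j → ∀ x ∈ s.M, φ i x ≠ φ j x) →
    ∃ μ : G → G, VCw s (∑ i, T i) μ ∧ ∀ x ∈ s.M, ∃ i, μ x = φ i x := by
  induction n with
  | zero =>
    intro T φ h _
    refine ⟨φ 0, ?_, fun x _ => ⟨0, rfl⟩⟩
    have e : ∑ i, T i = T 0 := by simp
    rw [e]
    exact h 0
  | succ n ih =>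
    intro T φ h hne
    obtain ⟨μ, h1, h2⟩ := ih (fun i => T i.castSucc) (fun i => φ i.castSucc)
      (fun i => h i.castSucc) (fun i j hij x hx => hne i.castSucc j.castSucc
        (fun h3 => hij (Fin.castSucc_injective _ h3)) x hx)
    have hne' : ∀ x ∈ s.M, μ x ≠ φ (Fin.last (n + 1)) x := by
      intro x hx
      obtain ⟨i, hi⟩ := h2 x hx
      rw [hi]
      exact hne _ _ (Fin.castSucc_lt_last i).ne x hx
    have h3 := vcw_add s _ _ μ (φ (Fin.last (n + 1))) h1 (h (Fin.last (n + 1))) hne'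
    rw [Fin.sum_univ_castSucc]
    refine ⟨_, h3, ?_⟩
    intro x hx
    rcases s.lt_tot (h1.1 x hx) ((h (Fin.last (n + 1))).1 x hx) with h4 | h4 | h4
    · exact absurd h4 (hne' x hx)
    · rw [mn_left s h4]
      obtain ⟨i, hi⟩ := h2 x hx
      exact ⟨i.castSucc, hi⟩
    · rw [mn_right s h4]
      exact ⟨Fin.last (n + 1), rfl⟩

theorem st_MVC : ST_MVC.{u, v} := by
  intro K _ G _ s n T φ h1 h2
  obtain ⟨μ, h, _⟩ := vcw_sum s n T φ h1 h2
  exact ⟨μ, h⟩

end LCH61
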