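import Pool.Agent.Helper93.LCH.Stmts
import Pool.Agent.Helper93.LCH.Basic2

/-!
Expressions with trivial support (row SCA of the chain criterion, helper61 for helper93).
-/

namespace LCH61

open LCH

universe u v

variable {K : Type u} [Field K] {G : Type v} [Group G]

theorem ev_scalar (e : Ex K G) (h : ∀ g ∈ e.supp, g = 1) :
    ∃ c : K, ∀ s : Sit G, e.ev s = c • (1 : Module.End K (s.V K)) := by
  induction e with
  | mono c g =>
    have hg : g = 1 := h g rfl
    subst hg
    refine ⟨c, fun s => ?_⟩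
    change c • s.tr K 1 = _
    rw [tr_one]
  | add a b iha ihb =>
    obtain ⟨c, hc⟩ := iha (fun g hg => h g (Or.inl hg))
    obtain ⟨d, hd⟩ := ihb (fun g hg => h g (Or.inr hg))
    refine ⟨c + d, fun s => ?_⟩
    change a.ev s + b.ev s = _
    rw [hc s, hd s, add_smul]
  | mul a b iha ihb =>
    obtain ⟨c, hc⟩ := iha (fun g hg => h g (Or.inl hg))
    obtain ⟨d, hd⟩ := ihb (fun g hg => h g (Or.inr hg))
    refine ⟨c * d, fun s => ?_⟩
    change a.ev s * b.ev s = _
    rw [hc s, hd s, smul_mul_assoc, one_mul, smul_smul]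
  | inv a iha =>
    obtain ⟨c, hc⟩ := iha h
    refine ⟨c⁻¹, fun s => ?_⟩
    change Ring.inverse (a.ev s) = _
    rw [hc s]
    by_cases h0 : c = 0
    · rw [h0, zero_smul, Ring.inverse_zero, inv_zero, zero_smul]
    · have h1 : (c • (1 : Module.End K (s.V K))) * (c⁻¹ • 1) = 1 := by
        rw [smul_mul_assoc, one_mul, smul_smul, mul_inv_cancel₀ h0, one_smul]
      have h2 : (c⁻¹ • (1 : Module.End K (s.V K))) * (c • 1) = 1 := by
        rw [smul_mul_assoc, one_mul, smul_smul, inv_mul_cancel₀ h0, one_smul]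
      exact Ring.inverse_unit ⟨c • 1, c⁻¹ • 1, h1, h2⟩

theorem st_SCA : ST_SCA.{u, v} := by
  intro K _ G _ e h
  obtain ⟨c, hc⟩ := ev_scalar e h
  by_cases h0 : c = 0
  · left
    intro s _
    rw [hc s, h0, zero_smul]
  · right
    intro s _
    rw [hc s]
    exact VC_one.smul h0

end LCH61
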